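import Mathlib

namespace Pool.Agent.Results.MP_469fc6_nt.TwoPrimes

open Finset

/-- The sum of the positive divisors. -/
def sig (n : ℕ) : ℕ := ∑ d ∈ n.divisors, d

/-- `n` is 2-hyperperfect: `n = 1 + 2 (σ(n) - n - 1)`. -/
def Hyper2 (n : ℕ) : Prop := (n : ℤ) = 1 + 2 * ((sig n : ℤ) - n - 1)

theorem sig_eq {p q : ℕ} (hp : p.Prime) (hq : q.Prime) (hpq : p ≠ q) (a b : ℕ) :
    sig (p ^ a * q ^ b) = (∑ i ∈ range (a + 1), p ^ i) * ∑ j ∈ range (b + 1), q ^ j := by
  rw [sig, ← ArithmeticFunction.sigma_one_apply, ArithmeticFunction.isMultiplicative_sigma.map_mul_of_coprime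
    (Nat.Coprime.pow a b ((Nat.coprime_primes hp hq).2 hpq)),
    ArithmeticFunction.sigma_one_apply_prime_pow hp, ArithmeticFunction.sigma_one_apply_prime_pow hq]

theorem bound (t p a : ℕ) (h : t + 1 ≤ p) :
    t * ∑ i ∈ range (a + 1), p ^ i < (t + 1) * p ^ a := by
  obtain ⟨c, rfl⟩ := Nat.exists_eq_add_of_le h
  have h1 := geom_sum_mul_add (t + c) (a + 1)
  rw [show t + c + 1 = t + 1 + c by ring, pow_succ] at h1
  have h3 : (t + 1 + c) ^ a ≤ ∑ i ∈ range (a + 1), (t + 1 + c) ^ i :=
    single_le_sum (f := fun i => (t + 1 + c) ^ i) (fun _ _ => Nat.zero_le _) (by simp)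
  nlinarith [Nat.mul_le_mul_left c h3]

theorem result (p q a b : ℕ) (hp : p.Prime) (hq : q.Prime) (hpq : p ≠ q)
    (h : Hyper2 (p ^ a * q ^ b)) :
    ∃ k, 1 ≤ k ∧ (3 ^ k - 2).Prime ∧ p ^ a * q ^ b = 3 ^ (k - 1) * (3 ^ k - 2) := by
  wlog hlt : p < q generalizing p q a b
  · rw [mul_comm] at h ⊢
    exact this q p b a hq hp hpq.symm h (by omega)
  have h' : 2 * sig (p ^ a * q ^ b) = 3 * (p ^ a * q ^ b) + 1 := by
    unfold Hyper2 at h
    omega
  clear h
  have h2 := hp.two_le
  by_cases e2 : p = 2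
  · subst e2
    exfalso
    rcases a with _ | a
    · have := bound 2 q b (by omega)
      rw [sig_eq hp hq hpq] at h'
      simp only [zero_add, range_one, sum_singleton, pow_zero, one_mul] at h'
      omega
    · rw [pow_succ' 2 a, mul_assoc] at h'
      omega
  rw [sig_eq hp hq hpq] at h'
  by_cases e3 : p = 3
  · subst e3
    have g := geom_sum_mul_add 2 (a + 1)
    norm_num only at g
    generalize ∑ i ∈ range (a + 1), 3 ^ i = S at h' g
    rcases b with _ | c
    · simp only [zero_add, range_one, sum_singleton, pow_zero, mul_one] at h'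
      rw [pow_succ] at g
      omega
    have e : ∑ j ∈ range (c + 1 + 1), q ^ j = q * (∑ j ∈ range (c + 1), q ^ j) + 1 := by
      rw [sum_range_succ', mul_sum]; simp [pow_succ']
    have e' := sum_range_succ (fun j => q ^ j) (c + 1)
    have k1 : 3 ^ (a + 1) * ∑ j ∈ range (c + 1), q ^ j = q * (∑ j ∈ range (c + 1), q ^ j) + 2 := by
      generalize ∑ j ∈ range (c + 1), q ^ j = R at *
      generalize ∑ j ∈ range (c + 1 + 1), q ^ j = T at *
      rw [pow_succ 3 a] at g ⊢
      zify at *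
      linear_combination h' + e - (T : ℤ) * g - 3 ^ a * 3 * e'
    have hd : ∑ j ∈ range (c + 1), q ^ j ∣ 2 :=
      (Nat.dvd_add_right (Dvd.intro_left q rfl)).1 (k1 ▸ Dvd.intro_left _ rfl)
    rcases c with _ | c
    · simp only [zero_add, range_one, sum_singleton, pow_zero, mul_one] at k1
      have hq' : 3 ^ (a + 1) - 2 = q := by omega
      exact ⟨a + 1, by omega, hq' ▸ hq, by rw [hq']; simp⟩
    · exfalso
      have l1 := Nat.le_of_dvd (by norm_num) hd
      have l2 : q ^ 1 ≤ ∑ j ∈ range (c + 1 + 1), q ^ j :=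
        single_le_sum (f := fun j => q ^ j) (fun _ _ => Nat.zero_le _) (by simp)
      rw [pow_one] at l2
      omega
  · exfalso
    have hp5 : 5 ≤ p := by
      by_contra hh
      obtain rfl : p = 4 := by omega
      exact absurd hp (by norm_num)
    have hq7 : 7 ≤ q := by
      by_contra hh
      obtain rfl : q = 6 := by omega
      exact absurd hq (by norm_num)
    have b3 := Nat.mul_lt_mul'' (bound 4 p a hp5) (bound 6 q b hq7)
    rw [mul_mul_mul_comm, mul_mul_mul_comm (4 + 1)] at b3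
    omega

end Pool.Agent.Results.MP_469fc6_nt.TwoPrimes
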